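import Pool.Agent.Helper31.MB.P4aL

/-!
# MB-4a: the lower bound of the explicit part
-/

open Filter Metric Module Set
open scoped Topology ContDiff RealInnerProductSpace Manifold

set_option maxSynthPendingDepth 3

namespace Pool.Agent.Helper31.MB
open Pool.Agent.Helper20.PC Pool.Agent.Helper20.HP Pool.Agent.Helper20.M8 Pool.Agent.Helper20.MB
open Pool.Agent.Helper76.HP (ev_diff diff_fderiv contDiffAt_of_apply)

section
variable {V Y : Type*} [NormedAddCommGroup V] [NormedSpace ℝ V] [FiniteDimensional ℝ V]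
  [NormedAddCommGroup Y] [NormedSpace ℝ Y] [FiniteDimensional ℝ Y]
  {h : V → V →L[ℝ] V →L[ℝ] ℝ} {m : V → Y →L[ℝ] Y →L[ℝ] ℝ}
  {S : V → Y →L[ℝ] Y →L[ℝ] Y →L[ℝ] Y →L[ℝ] ℝ} {A : V → V →L[ℝ] Y →L[ℝ] Y} {x : V} {y : Y}

omit [FiniteDimensional ℝ Y] in
/-- the expanded form of the explicit part. -/
lemma FN_expand (H : NG h m S A x) {δ : ℝ} (hδ : 0 < δ) (X Z : V) (U T : Y) (ca sa cb sb : ℝ) :
    FN h m S A δ x y (ca • X) ((sa / δ) • U) (cb • Z) ((sb / δ) • T)
      = num h x X Z * (ca * cb) ^ 2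
      + δ * (ca * cb) * ((ca * sb) * (- m x (DOmV h A x X X Z y) T)
        + (sa * cb) * (- m x (DOmV h A x Z Z X y) U))
      + δ ^ 2 * ((ca * sb) ^ 2 * ((1/2) * hS4 h S x X X y T y T)
        + (sa * cb) ^ 2 * ((1/2) * hS4 h S x Z Z y U y U))
      + ((δ ^ 2)⁻¹ * (sa * sb) ^ 2 * (m x U U * m x T T - m x U T ^ 2)
        + (sa * sb) ^ 2 * (-2 * (m x U U * S x y T y T + m x T T * S x y U y U
            - 2 * m x U T * S x y U y T) + 3 * S x U T U T)
        + (ca * cb * (sa * sb)) * (- (δ ^ 2 * hS4 h S x X Z y U y T)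
            + (3/2) * δ ^ 2 * (S x U (OmV A x X Z y) y T + S x y (OmV A x X Z y) U T)
            - (3/2) * δ ^ 2 * (S x T (OmV A x X Z y) y U + S x y (OmV A x X Z y) T U)
            - (3/2) * MM m S δ x y (OmV A x X Z U) T + (3/2) * MM m S δ x y (OmV A x X Z T) U)
        + (δ * (sa * sb) * (ca * sb)) * (3 * dS4 S x X U T y T)
        + (δ * (sa * sb) * (sa * cb)) * (3 * dS4 S x Z T U y U)
        + (δ ^ 3 * (ca * cb) * (ca * sb)) * ((3/2) * dS4 S x X y (OmV A x X Z y) y T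
            + S x y (DOmV h A x X X Z y) y T)
        + (δ ^ 3 * (ca * cb) * (sa * cb)) * (- (3/2) * dS4 S x Z y (OmV A x X Z y) y U
            + S x y (DOmV h A x Z Z X y) y U)
        + (δ ^ 2 * (ca * cb) ^ 2) * (- (3/4) * MM m S δ x y (OmV A x X Z y) (OmV A x X Z y))) := by
  have hne : δ ≠ 0 := hδ.ne'
  have e1 : num h x (ca • X) (cb • Z) = (ca * cb) ^ 2 * num h x X Z := by
    have := Pool.Agent.Helper93.HP.num_comb H.hh ca 0 0 cb X Z
    simp only [zero_smul, add_zero, zero_add, mul_zero, sub_zero] at this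
    exact this
  have e3 := OmV_smul2 (A := A) (x := x) ca cb X Z
  have e4 := DOmV_smul3 H ca cb X Z
  have e5 := DOmV_smul3 H cb ca Z X
  have e6 := hS4_smul4 (y := y) H ca ca (sb / δ) (sb / δ) X X T T
  have e7 := hS4_smul4 (y := y) H cb cb (sa / δ) (sa / δ) Z Z U U
  have e8 := hS4_smul4 (y := y) H ca cb (sa / δ) (sb / δ) X Z U T
  simp only [FN]
  rw [e1, e3, e4, e5, e6, e7, e8]
  simp only [dS4_lin H.hS, MM, map_smul, _root_.smul_apply, smul_eq_mul]
  field_simp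
  ring

omit [FiniteDimensional ℝ Y] in
theorem FN_lower_aux (H : NG h m S A x) {b δ : ℝ} (hb : BdN h m S A x b) {X Z : V} {U T : Y}
    {ca sa cb sb : ℝ} (F : Fr h m S δ b x y X Z U T ca sa cb sb) :
    num h x X Z * (ca * cb) ^ 2 + (1/4) * (δ ^ 2)⁻¹ * (sa * sb) ^ 2
      + δ * (ca * cb) * ((ca * sb) * (- m x (DOmV h A x X X Z y) T)
        + (sa * cb) * (- m x (DOmV h A x Z Z X y) U))
      + δ ^ 2 * ((ca * sb) ^ 2 * ((1/2) * hS4 h S x X X y T y T)
        + (sa * cb) ^ 2 * ((1/2) * hS4 h S x Z Z y U y U))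
      - 100 * b ^ 3 * Er δ (ca * cb) (sa * sb) (ca * sb) (sa * cb)
      ≤ FN h m S A δ x y (ca • X) ((sa / δ) • U) (cb • Z) ((sb / δ) • T) := by
  rw [FN_expand H F.δ0]
  have hδ := F.δ0
  have hδ2 : 0 < δ ^ 2 := pow_pos hδ 2
  have hδ21 : δ ^ 2 ≤ 1 := pow_le_one₀ hδ.le F.δ1
  have hb1 := hb.one
  have hb0 : 0 < b := lt_of_lt_of_le one_pos hb1
  have hb12 : b ≤ b ^ 2 := le_self_pow₀ hb1 (by norm_num)
  have hb23 : b ^ 2 ≤ b ^ 3 := pow_le_pow_right₀ hb1 (by norm_num)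
  have hb2 : 0 < b ^ 2 := pow_pos hb0 2
  have hb3 : 0 < b ^ 3 := pow_pos hb0 3
  have hδb := F.δb
  have hδb2 : δ ^ 2 * b ^ 2 ≤ 1/100 * b := by
    calc δ ^ 2 * b ^ 2 = (δ ^ 2 * b) * b := by ring
      _ ≤ 1/100 * b := mul_le_mul_of_nonneg_right hδb hb0.le
  have hδb3 : δ ^ 2 * b ^ 3 ≤ 1/100 * b ^ 2 := by
    calc δ ^ 2 * b ^ 3 = (δ ^ 2 * b) * b ^ 2 := by ring
      _ ≤ 1/100 * b ^ 2 := mul_le_mul_of_nonneg_right hδb hb2.le
  -- norms of the horizontal vectors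
  have hX : nrm (h x) X = 1 := by rw [nrm, F.XX, Real.sqrt_one]
  have hZ : nrm (h x) Z = 1 := by rw [nrm, F.ZZ, Real.sqrt_one]
  have hXZ : nrm (h x) (X + Z) ^ 2 = 2 := by
    rw [nrm_s H.hh.pos.self_of_nhds]
    have := H.hh.symm.self_of_nhds Z X
    simp only [map_add, _root_.add_apply, F.XX, F.ZZ, F.XZ, this]
    norm_num
  have hy : nrm (m x) y = 1 := by rw [nrm, F.yy, Real.sqrt_one]
  have ns := fun a => nrm_s (f := m x) H.hm.pos.self_of_nhds a
  have nn := fun a => nrm_nn (m x) a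
  -- norms of `U`, `T`
  have key : ∀ P : Y, MM m S δ x y P P = 1 → |m x P P - 1| ≤ 2/100 ∧ nrm (m x) P ≤ 102/100
      ∧ |S x y P y P| ≤ 104/100 * b := by
    intro P hP
    have h1 := hb.hS0 y P y P
    rw [hy] at h1
    have h2 : |S x y P y P| ≤ b * nrm (m x) P ^ 2 := by
      calc |S x y P y P| ≤ b * 1 * nrm (m x) P * 1 * nrm (m x) P := h1
        _ = b * nrm (m x) P ^ 2 := by ring
    have h3 : |δ ^ 2 * S x y P y P| ≤ 1/100 * nrm (m x) P ^ 2 := by
      rw [abs_mul, abs_of_pos hδ2]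
      calc δ ^ 2 * |S x y P y P| ≤ δ ^ 2 * (b * nrm (m x) P ^ 2) := by gcongr
        _ = (δ ^ 2 * b) * nrm (m x) P ^ 2 := by ring
        _ ≤ 1/100 * nrm (m x) P ^ 2 := by gcongr
    have h4 : m x P P - δ ^ 2 * S x y P y P = 1 := hP
    have h5 := ns P
    rw [← h5] at h4
    have h6 := abs_le.1 h3
    have h7 : nrm (m x) P ^ 2 ≤ 102/100 := by linarith [h6.2]
    have h8 : 98/100 ≤ nrm (m x) P ^ 2 := by linarith [h6.1]
    refine ⟨?_, ?_, ?_⟩
    · rw [← h5, abs_le]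
      constructor <;> linarith
    · refine le_of_sq_le_sq ?_ (by norm_num)
      linarith
    · refine h2.trans ?_
      have : b * nrm (m x) P ^ 2 ≤ b * (102/100) := by gcongr
      linarith
  obtain ⟨mU, nU, SU⟩ := key U F.UU
  obtain ⟨mT, nT, ST⟩ := key T F.TT
  -- norms of the curvature terms
  have kO : ∀ P : Y, nrm (m x) (OmV A x X Z P) ≤ b * nrm (m x) P := by
    intro P
    refine le_of_self (nn _) (by have := nn P; positivity) ?_
    rw [ns]
    refine (le_abs_self _).trans ((hb.hOm X Z _ P).trans ?_)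
    rw [hX, hZ]
    apply le_of_eq; ring
  have nW : nrm (m x) (OmV A x X Z y) ≤ b := by
    have := kO y
    rwa [hy, mul_one] at this
  have nOU : nrm (m x) (OmV A x X Z U) ≤ 102/100 * b := by
    refine (kO U).trans ?_
    have : b * nrm (m x) U ≤ b * (102/100) := by gcongr
    linarith
  have nOT : nrm (m x) (OmV A x X Z T) ≤ 102/100 * b := by
    refine (kO T).trans ?_
    have : b * nrm (m x) T ≤ b * (102/100) := by gcongr
    linarith
  have nD1 : nrm (m x) (DOmV h A x X X Z y) ≤ b := by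
    refine le_of_self (nn _) hb0.le ?_
    rw [ns]
    refine (le_abs_self _).trans ((hb.hdOm X Z _ y).trans ?_)
    rw [hX, hZ, hy]
    apply le_of_eq; ring
  have nD2 : nrm (m x) (DOmV h A x Z Z X y) ≤ b := by
    refine le_of_self (nn _) hb0.le ?_
    rw [ns]
    refine (le_abs_self _).trans ((hb.hdOm Z X _ y).trans ?_)
    rw [hX, hZ, hy]
    apply le_of_eq; ring
  have bS : ∀ {p q r s : Y} {c1 c2 c3 c4 : ℝ}, nrm (m x) p ≤ c1 → nrm (m x) q ≤ c2 →
      nrm (m x) r ≤ c3 → nrm (m x) s ≤ c4 → |S x p q r s| ≤ b * c1 * c2 * c3 * c4 :=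
    fun {p q r s} {c1 c2 c3 c4} k1 k2 k3 k4 =>
      bd4 hb0.le (hb.hS0 p q r s) (nn _) (nn _) (nn _) (nn _) k1 k2 k3 k4
  have bdS : ∀ {P : V} {p q r s : Y} {c1 c2 c3 c4 : ℝ}, nrm (h x) P = 1 → nrm (m x) p ≤ c1 →
      nrm (m x) q ≤ c2 → nrm (m x) r ≤ c3 → nrm (m x) s ≤ c4 →
      |dS4 S x P p q r s| ≤ b * c1 * c2 * c3 * c4 := by
    intro P p q r s c1 c2 c3 c4 k0 k1 k2 k3 k4
    have := hb.hS1 P p q r s
    rw [k0, mul_one] at this
    exact bd4 hb0.le this (nn _) (nn _) (nn _) (nn _) k1 k2 k3 k4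
  have bhS : ∀ P : V, |hS4 h S x P P y U y T| ≤ (106/100 * b) * nrm (h x) P ^ 2 := by
    intro P
    have := hb.hS2 P y U y T
    refine this.trans ?_
    rw [hy]
    have e1 : nrm (m x) U * nrm (m x) T ≤ 102/100 * (102/100) := by
      have := nn U; have := nn T
      gcongr
    have e2 : 0 ≤ b * nrm (h x) P ^ 2 := by positivity
    calc b * nrm (h x) P ^ 2 * 1 * nrm (m x) U * 1 * nrm (m x) T
        = (b * nrm (h x) P ^ 2) * (nrm (m x) U * nrm (m x) T) := by ring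
      _ ≤ (b * nrm (h x) P ^ 2) * (102/100 * (102/100)) := by gcongr
      _ ≤ (106/100 * b) * nrm (h x) P ^ 2 := by nlinarith
  have hy1 : nrm (m x) y ≤ 1 := hy.le
  -- the coefficients
  have q12 : |hS4 h S x X Z y U y T| ≤ 3 * b := by
    have e := hS4_polar H X Z y U y T
    have k1 := bhS X
    have k2 := bhS Z
    have k3 := bhS (X + Z)
    rw [hX] at k1
    rw [hZ] at k2
    rw [hXZ] at k3
    rw [abs_le] at *
    constructor <;> linarith [k1.1, k1.2, k2.1, k2.2, k3.1, k3.2]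
  have SUT : |S x y U y T| ≤ 106/100 * b := (bS hy1 nU hy1 nT).trans (by linarith)
  have mUT : |m x U T| ≤ 2/100 := by
    have e : m x U T = δ ^ 2 * S x y U y T := by
      have := F.UT
      simp only [MM] at this
      linarith
    rw [e, abs_mul, abs_of_pos hδ2]
    calc δ ^ 2 * |S x y U y T| ≤ δ ^ 2 * (106/100 * b) := by gcongr
      _ = 106/100 * (δ ^ 2 * b) := by ring
      _ ≤ 2/100 := by linarith
  have hG : 1/4 ≤ m x U U * m x T T - m x U T ^ 2 := by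
    rw [abs_le] at mU mT mUT
    have g1 : 98/100 ≤ m x U U := by linarith
    have g2 : 98/100 ≤ m x T T := by linarith
    have g3 : (98/100) * (98/100) ≤ m x U U * m x T T := by gcongr
    have g4 : m x U T ^ 2 ≤ (2/100) ^ 2 := by
      apply sq_le_sq'
      · linarith
      · linarith
    linarith
  have MMb : ∀ {p q : Y} {c : ℝ}, |m x p q| ≤ c → nrm (m x) p ≤ 102/100 * b → nrm (m x) q ≤ 102/100 →
      |MM m S δ x y p q| ≤ c + 2/100 * b := by
    intro p q c k1 k2 k3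
    have e1 : |δ ^ 2 * S x y p y q| ≤ 2/100 * b := by
      rw [abs_mul, abs_of_pos hδ2]
      calc δ ^ 2 * |S x y p y q| ≤ δ ^ 2 * (b * 1 * (102/100 * b) * 1 * (102/100)) := by
            gcongr; exact bS hy1 k2 hy1 k3
        _ = (δ ^ 2 * b ^ 2) * (102/100 * (102/100)) := by ring
        _ ≤ (1/100 * b) * (102/100 * (102/100)) := by gcongr
        _ ≤ 2/100 * b := by linarith
    have e2 := abs_sub (m x p q) (δ ^ 2 * S x y p y q)
    rw [MM]
    linarith
  have bOm : ∀ {p q : Y}, nrm (m x) p ≤ 102/100 → nrm (m x) q ≤ 102/100 →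
      |m x (OmV A x X Z p) q| ≤ 105/100 * b := by
    intro p q k1 k2
    rw [H.hm.symm.self_of_nhds]
    refine (hb.hOm X Z q p).trans ?_
    rw [hX, hZ]
    have := nn p; have := nn q
    calc b * 1 * 1 * nrm (m x) q * nrm (m x) p ≤ b * 1 * 1 * (102/100) * (102/100) := by gcongr
      _ ≤ 105/100 * b := by linarith
  have M1 : |MM m S δ x y (OmV A x X Z U) T| ≤ 107/100 * b :=
    (MMb (bOm nU nT) nOU nT).trans (by linarith)
  have M2 : |MM m S δ x y (OmV A x X Z T) U| ≤ 107/100 * b :=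
    (MMb (bOm nT nU) nOT nU).trans (by linarith)
  have M3 : |MM m S δ x y (OmV A x X Z y) (OmV A x X Z y)| ≤ 2 * b ^ 2 := by
    have e1 : |δ ^ 2 * S x y (OmV A x X Z y) y (OmV A x X Z y)| ≤ b ^ 2 := by
      rw [abs_mul, abs_of_pos hδ2]
      calc δ ^ 2 * |S x y (OmV A x X Z y) y (OmV A x X Z y)| ≤ δ ^ 2 * (b * 1 * b * 1 * b) := by
            gcongr; exact bS hy1 nW hy1 nW
        _ = δ ^ 2 * b ^ 3 := by ring
        _ ≤ b ^ 2 := by linarith
    have e3 : |m x (OmV A x X Z y) (OmV A x X Z y)| ≤ b ^ 2 := by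
      rw [← ns, abs_of_nonneg (sq_nonneg _)]
      have := nn (OmV A x X Z y)
      gcongr
    have e2 := abs_sub (m x (OmV A x X Z y) (OmV A x X Z y))
      (δ ^ 2 * S x y (OmV A x X Z y) y (OmV A x X Z y))
    rw [MM]
    linarith
  have c1 : |-2 * (m x U U * S x y T y T + m x T T * S x y U y U
            - 2 * m x U T * S x y U y T) + 3 * S x U T U T| ≤ 100 * b ^ 3 := by
    have a1 : |m x U U * S x y T y T| ≤ 2 * b := by
      rw [abs_mul]
      have : |m x U U| ≤ 102/100 := by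
        rw [abs_le] at mU ⊢; constructor <;> linarith
      calc |m x U U| * |S x y T y T| ≤ 102/100 * (104/100 * b) := by gcongr
        _ ≤ 2 * b := by linarith
    have a2 : |m x T T * S x y U y U| ≤ 2 * b := by
      rw [abs_mul]
      have : |m x T T| ≤ 102/100 := by
        rw [abs_le] at mT ⊢; constructor <;> linarith
      calc |m x T T| * |S x y U y U| ≤ 102/100 * (104/100 * b) := by gcongr
        _ ≤ 2 * b := by linarith
    have a3 : |m x U T * S x y U y T| ≤ b := by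
      rw [abs_mul]
      calc |m x U T| * |S x y U y T| ≤ 2/100 * (106/100 * b) := by gcongr
        _ ≤ b := by linarith
    have a4 : |S x U T U T| ≤ 2 * b := (bS nU nT nU nT).trans (by linarith)
    rw [abs_le] at a1 a2 a3 a4 ⊢
    constructor <;> linarith [a1.1, a1.2, a2.1, a2.2, a3.1, a3.2, a4.1, a4.2]
  have c2 : |- (δ ^ 2 * hS4 h S x X Z y U y T)
            + (3/2) * δ ^ 2 * (S x U (OmV A x X Z y) y T + S x y (OmV A x X Z y) U T)
            - (3/2) * δ ^ 2 * (S x T (OmV A x X Z y) y U + S x y (OmV A x X Z y) T U)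
            - (3/2) * MM m S δ x y (OmV A x X Z U) T + (3/2) * MM m S δ x y (OmV A x X Z T) U|
      ≤ 100 * b ^ 3 := by
    have a0 : |δ ^ 2 * hS4 h S x X Z y U y T| ≤ 3 * b := by
      rw [abs_mul, abs_of_pos hδ2]
      calc δ ^ 2 * |hS4 h S x X Z y U y T| ≤ 1 * (3 * b) := by gcongr
        _ = 3 * b := by ring
    have aa : ∀ {s : ℝ}, |s| ≤ 2 * b ^ 2 → |δ ^ 2 * s| ≤ 2 * b ^ 2 := by
      intro s hs
      rw [abs_mul, abs_of_pos hδ2]
      calc δ ^ 2 * |s| ≤ 1 * (2 * b ^ 2) := by gcongr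
        _ = 2 * b ^ 2 := by ring
    have a1 := aa ((bS nU nW hy1 nT).trans (by nlinarith))
    have a2 := aa ((bS hy1 nW nU nT).trans (by nlinarith))
    have a3 := aa ((bS nT nW hy1 nU).trans (by nlinarith))
    have a4 := aa ((bS hy1 nW nT nU).trans (by nlinarith))
    rw [abs_le] at a0 a1 a2 a3 a4 M1 M2 ⊢
    constructor <;> linarith [a0.1, a0.2, a1.1, a1.2, a2.1, a2.2, a3.1, a3.2, a4.1, a4.2,
      M1.1, M1.2, M2.1, M2.2]
  have c3 : |3 * dS4 S x X U T y T| ≤ 100 * b ^ 3 := by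
    have a1 : |dS4 S x X U T y T| ≤ 2 * b := (bdS hX nU nT hy1 nT).trans (by linarith)
    rw [abs_le] at a1 ⊢
    constructor <;> linarith [a1.1, a1.2]
  have c4 : |3 * dS4 S x Z T U y U| ≤ 100 * b ^ 3 := by
    have a1 : |dS4 S x Z T U y U| ≤ 2 * b := (bdS hZ nT nU hy1 nU).trans (by linarith)
    rw [abs_le] at a1 ⊢
    constructor <;> linarith [a1.1, a1.2]
  have c5 : |(3/2) * dS4 S x X y (OmV A x X Z y) y T + S x y (DOmV h A x X X Z y) y T|
      ≤ 100 * b ^ 3 := by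
    have a1 : |dS4 S x X y (OmV A x X Z y) y T| ≤ 2 * b ^ 2 :=
      (bdS hX hy1 nW hy1 nT).trans (by nlinarith)
    have a2 : |S x y (DOmV h A x X X Z y) y T| ≤ 2 * b ^ 2 := (bS hy1 nD1 hy1 nT).trans (by nlinarith)
    rw [abs_le] at a1 a2 ⊢
    constructor <;> linarith [a1.1, a1.2, a2.1, a2.2]
  have c6 : |- (3/2) * dS4 S x Z y (OmV A x X Z y) y U + S x y (DOmV h A x Z Z X y) y U|
      ≤ 100 * b ^ 3 := by
    have a1 : |dS4 S x Z y (OmV A x X Z y) y U| ≤ 2 * b ^ 2 :=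
      (bdS hZ hy1 nW hy1 nU).trans (by nlinarith)
    have a2 : |S x y (DOmV h A x Z Z X y) y U| ≤ 2 * b ^ 2 := (bS hy1 nD2 hy1 nU).trans (by nlinarith)
    rw [abs_le] at a1 a2 ⊢
    constructor <;> linarith [a1.1, a1.2, a2.1, a2.2]
  have c7 : |- (3/4) * MM m S δ x y (OmV A x X Z y) (OmV A x X Z y)| ≤ 100 * b ^ 3 := by
    rw [abs_le] at M3 ⊢
    constructor <;> linarith [M3.1, M3.2]
  have R := real_est (xx := ca * cb) (z := sa * sb) (m1 := ca * sb) (m2 := sa * cb) hδ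
    (show 0 ≤ 100 * b ^ 3 by positivity) hG c1 c2 c3 c4 c5 c6 c7
  linarith only [R]

theorem FN_lower (H : NG h m S A x) {b δ : ℝ} (hb : BdN h m S A x b) {X Z : V} {U T : Y}
    {ca sa cb sb : ℝ} (F : Fr h m S δ b x y X Z U T ca sa cb sb) :
    num h x X Z * (ca * cb) ^ 2 + (1/4) * (δ ^ 2)⁻¹ * (sa * sb) ^ 2
      + δ * (ca * cb) * ((ca * sb) * (- m x (DOmV h A x X X Z y) T)
        + (sa * cb) * (- m x (DOmV h A x Z Z X y) U))
      + δ ^ 2 * ((ca * sb) ^ 2 * ((1/2) * hS4 h S x X X y T y T)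
        + (sa * cb) ^ 2 * ((1/2) * hS4 h S x Z Z y U y U))
      - 100 * b ^ 3 * Er δ (ca * cb) (sa * sb) (ca * sb) (sa * cb)
      ≤ FN h m S A δ x y (ca • X) ((sa / δ) • U) (cb • Z) ((sb / δ) • T) :=
  FN_lower_aux H hb F

end

end Pool.Agent.Helper31.MB
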