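import Pool.Agent.Helper20.MB.DefsN
import Pool.Agent.Helper20.M8.Exact
import Pool.Agent.Helper93.HP.P4

/-!
# MB-4a: the lower bound of the explicit part
-/

open Filter Metric Module Set
open scoped Topology ContDiff RealInnerProductSpace Manifold

set_option maxSynthPendingDepth 3

namespace Pool.Agent.Helper31.MB
open Pool.Agent.Helper20.PC Pool.Agent.Helper20.HP Pool.Agent.Helper20.M8 Pool.Agent.Helper20.MB
open Pool.Agent.Helper76.HP (ev_diff diff_fderiv contDiffAt_of_apply)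

/-! ### real estimates -/

lemma low {β t c : ℝ} (h : |c| ≤ β) : -(β * |t|) ≤ t * c := by
  have h1 : |t * c| ≤ |t| * β := by rw [abs_mul]; gcongr
  have h2 := neg_abs_le (t * c)
  linarith

lemma real_est {δ β xx z m1 m2 G c1 c2 c3 c4 c5 c6 c7 : ℝ} (hδ : 0 < δ) (hβ : 0 ≤ β)
    (hG : 1/4 ≤ G) (h1 : |c1| ≤ β) (h2 : |c2| ≤ β) (h3 : |c3| ≤ β) (h4 : |c4| ≤ β)
    (h5 : |c5| ≤ β) (h6 : |c6| ≤ β) (h7 : |c7| ≤ β) :
    (1/4) * (δ ^ 2)⁻¹ * z ^ 2 - β * Er δ xx z m1 m2 ≤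
      (δ ^ 2)⁻¹ * z ^ 2 * G + z ^ 2 * c1 + (xx * z) * c2 + (δ * z * m1) * c3 + (δ * z * m2) * c4
        + (δ ^ 3 * xx * m1) * c5 + (δ ^ 3 * xx * m2) * c6 + (δ ^ 2 * xx ^ 2) * c7 := by
  have e : Er δ xx z m1 m2 = |δ ^ 2 * xx ^ 2| + |z ^ 2| + |xx * z| + |δ * z * m1| + |δ * z * m2|
      + |δ ^ 3 * xx * m1| + |δ ^ 3 * xx * m2| + δ ^ 4 * (m1 ^ 2 + m2 ^ 2) := by
    simp only [Er, abs_mul, abs_pow, abs_of_pos hδ, sq_abs]
    ring
  rw [e]
  have g0 : (δ ^ 2)⁻¹ * z ^ 2 * (1/4) ≤ (δ ^ 2)⁻¹ * z ^ 2 * G := by gcongr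
  have g1 := low (t := z ^ 2) h1
  have g2 := low (t := xx * z) h2
  have g3 := low (t := δ * z * m1) h3
  have g4 := low (t := δ * z * m2) h4
  have g5 := low (t := δ ^ 3 * xx * m1) h5
  have g6 := low (t := δ ^ 3 * xx * m2) h6
  have g7 := low (t := δ ^ 2 * xx ^ 2) h7
  have g8 : 0 ≤ β * (δ ^ 4 * (m1 ^ 2 + m2 ^ 2)) := by positivity
  linarith

section
variable {V Y : Type*} [NormedAddCommGroup V] [NormedSpace ℝ V] [FiniteDimensional ℝ V]
  [NormedAddCommGroup Y] [NormedSpace ℝ Y] [FiniteDimensional ℝ Y]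
  {h : V → V →L[ℝ] V →L[ℝ] ℝ} {m : V → Y →L[ℝ] Y →L[ℝ] ℝ}
  {S : V → Y →L[ℝ] Y →L[ℝ] Y →L[ℝ] Y →L[ℝ] ℝ} {A : V → V →L[ℝ] Y →L[ℝ] Y} {x : V} {y : Y}

/-! ### linearity -/

omit [FiniteDimensional ℝ V] in
lemma dG_lin (hh : ContDiffAt ℝ 2 h x) (t u v : V) : dG h x t u v = fderiv ℝ h x t u v := by
  have hd := (hh.differentiableAt (by norm_num : (2 : WithTop ℕ∞) ≠ 0)).hasFDerivAt
  have := ((hd.clm_apply (hasFDerivAt_const u x)).clm_apply (hasFDerivAt_const v x)).fderiv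
  rw [dG, this]
  simp

lemma Gam_smul2 (hh : MetAt h x) (r s : ℝ) (u v : V) :
    Gam h x (r • u) (s • v) = (r * s) • Gam h x u v := by
  apply Gam_unique hh
  intro w
  rw [chr_apply hh.smooth]
  simp only [map_smul, _root_.smul_apply, smul_eq_mul]
  rw [G_Gam hh, chr_apply hh.smooth]
  simp only [dG_lin hh.smooth, map_smul, _root_.smul_apply, smul_eq_mul]
  ring

lemma Gam_polar (hh : MetAt h x) (u v : V) :
    Gam h x (u + v) (u + v) = Gam h x u u + Gam h x v v + (2 : ℝ) • Gam h x u v := by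
  apply Gam_unique hh
  intro w
  rw [chr_apply hh.smooth]
  simp only [map_add, map_smul, _root_.add_apply, _root_.smul_apply, smul_eq_mul]
  rw [G_Gam hh, G_Gam hh, G_Gam hh, chr_apply hh.smooth, chr_apply hh.smooth, chr_apply hh.smooth]
  have e := dG_symm hh w u v
  simp only [dG_lin hh.smooth, map_add, _root_.add_apply] at e ⊢
  linarith

omit [FiniteDimensional ℝ V] [FiniteDimensional ℝ Y] in
lemma dS4_lin (hS : ContDiffAt ℝ 2 S x) (ζ : V) (a b c d : Y) :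
    dS4 S x ζ a b c d = fderiv ℝ S x ζ a b c d := by
  have hd := (hS.differentiableAt (by norm_num : (2 : WithTop ℕ∞) ≠ 0)).hasFDerivAt
  have := ((((hd.clm_apply (hasFDerivAt_const a x)).clm_apply (hasFDerivAt_const b x)).clm_apply
    (hasFDerivAt_const c x)).clm_apply (hasFDerivAt_const d x)).fderiv
  rw [dS4, this]
  simp

omit [FiniteDimensional ℝ Y] in
lemma hS4_smul4 (H : NG h m S A x) (r s p q : ℝ) (ξ ζ : V) (a b : Y) :
    hS4 h S x (r • ξ) (s • ζ) y (p • a) y (q • b) = r * s * (p * q) * hS4 h S x ξ ζ y a y b := by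
  have hs : ∀ a b c d, ContDiffAt ℝ 2 (fun x' => S x' a b c d) x := fun a b c d =>
    (((H.hS.clm_apply contDiffAt_const).clm_apply contDiffAt_const).clm_apply
      contDiffAt_const).clm_apply contDiffAt_const
  have e : (fun x' => S x' y (p • a) y (q • b)) = fun x' => (p * q) * S x' y a y b := by
    funext x'
    simp only [map_smul, _root_.smul_apply, smul_eq_mul]; ring
  have e1 : fderiv ℝ (fun x' => (p * q) * S x' y a y b) =ᶠ[𝓝 x]
      fun x' => (p * q) • fderiv ℝ (fun x' => S x' y a y b) x' := by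
    filter_upwards [ev_diff (hs y a y b)] with x' hx'
    rw [fderiv_const_mul hx']
  rw [hS4, hS4, ddS4_eq H.hS, ddS4_eq H.hS, dS4, dS4, e, e1.fderiv_eq (𝕜 := ℝ), e1.self_of_nhds,
    fderiv_fun_const_smul (diff_fderiv (hs y a y b)), Gam_smul2 H.hh]
  simp only [map_smul, _root_.smul_apply, smul_eq_mul]
  ring

omit [FiniteDimensional ℝ Y] in
lemma hS4_polar (H : NG h m S A x) (X Z : V) (a b c d : Y) :
    2 * hS4 h S x X Z a b c d = hS4 h S x (X + Z) (X + Z) a b c d - hS4 h S x X X a b c d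
      - hS4 h S x Z Z a b c d := by
  have e := ddS4_polar H.hS X Z a b c d
  rw [hS4, hS4, hS4, hS4, e, Gam_polar H.hh]
  simp only [dS4_lin H.hS, map_add, map_smul, _root_.add_apply, _root_.smul_apply, smul_eq_mul]
  ring

omit [FiniteDimensional ℝ V] [FiniteDimensional ℝ Y] in
lemma OmV_smul2 (r s : ℝ) (u v : V) :
    OmV A x (r • u) (s • v) = (r * s) • OmV A x u v := by
  ext q
  simp only [OmV, map_smul, _root_.add_apply, _root_.sub_apply, _root_.smul_apply,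
    ContinuousLinearMap.comp_apply]
  module

omit [FiniteDimensional ℝ Y] in
lemma DOmV_smul3 (H : NG h m S A x) (r s : ℝ) (u v : V) :
    DOmV h A x (r • u) (r • u) (s • v) = (r ^ 2 * s) • DOmV h A x u u v := by
  have d0 : DifferentiableAt ℝ (fun x' => OmV A x' u v) x := by
    have dA := H.hA.differentiableAt (by norm_num : (2 : WithTop ℕ∞) ≠ 0)
    have d1 : ∀ a b, DifferentiableAt ℝ (fun x' => fderiv ℝ A x' a b) x := fun a b =>
      (((diff_fderiv H.hA).clm_apply (differentiableAt_const _)).clm_apply (differentiableAt_const _))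
    have a1 : ∀ a, DifferentiableAt ℝ (fun x' => A x' a) x := fun a => dA.clm_apply (differentiableAt_const a)
    exact (((d1 u v).sub (d1 v u)).add ((a1 u).clm_comp (a1 v))).sub ((a1 v).clm_comp (a1 u))
  have e1 : (fun x' => OmV A x' (r • u) (s • v)) = fun x' => (r * s) • OmV A x' u v := by
    funext x'
    exact OmV_smul2 r s u v
  have e2 := Gam_smul2 H.hh r r u u
  have e3 := Gam_smul2 H.hh r s u v
  rw [DOmV, DOmV, e1, e2, e3, fderiv_fun_const_smul d0, OmV_smul2, OmV_smul2, OmV_smul2]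
  simp only [H.A0, _root_.zero_apply, smul_zero, ContinuousLinearMap.zero_comp,
    ContinuousLinearMap.comp_zero, add_zero, sub_zero, _root_.smul_apply, map_smul]
  module

/-! ### norms -/

omit [FiniteDimensional ℝ V] in
lemma nrm_nn {E : Type*} [NormedAddCommGroup E] [NormedSpace ℝ E] (f : E →L[ℝ] E →L[ℝ] ℝ)
    (a : E) : 0 ≤ nrm f a := Real.sqrt_nonneg _

lemma nrm_s {E : Type*} [NormedAddCommGroup E] [NormedSpace ℝ E] {f : E →L[ℝ] E →L[ℝ] ℝ}
    (hp : ∀ a, a ≠ 0 → 0 < f a a) (a : E) : nrm f a ^ 2 = f a a := by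
  by_cases h : a = 0
  · simp [nrm, h]
  · exact Real.sq_sqrt (hp a h).le

lemma le_of_self {n c : ℝ} (hn : 0 ≤ n) (hc : 0 ≤ c) (h : n ^ 2 ≤ c * n) : n ≤ c := by
  rcases hn.eq_or_lt with h0 | h0
  · rw [← h0]; exact hc
  · by_contra hcon
    push Not at hcon
    have := mul_lt_mul_of_pos_right hcon h0
    nlinarith

lemma bd4 {f b a1 a2 a3 a4 c1 c2 c3 c4 : ℝ} (hb : 0 ≤ b) (hf : |f| ≤ b * a1 * a2 * a3 * a4)
    (n1 : 0 ≤ a1) (n2 : 0 ≤ a2) (n3 : 0 ≤ a3) (n4 : 0 ≤ a4)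
    (h1 : a1 ≤ c1) (h2 : a2 ≤ c2) (h3 : a3 ≤ c3) (h4 : a4 ≤ c4) :
    |f| ≤ b * c1 * c2 * c3 * c4 := by
  refine hf.trans ?_
  have m1 := n1.trans h1
  have m2 := n2.trans h2
  have m3 := n3.trans h3
  gcongr

end

end Pool.Agent.Helper31.MB
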